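import Mathlib

/-! Hadamard powers of the covariance of Lévy's fractional Brownian field on separated
configurations: the quadratic-form inequalities. -/

namespace Pool.Agent.KS6_84.FBM

open MeasureTheory Set Filter Topology Real

/-- The quadratic form of a real kernel. -/
noncomputable def Q {ι : Type*} [Fintype ι] (M : ι → ι → ℝ) (x : ι → ℝ) : ℝ :=
  ∑ i, ∑ j, x i * M i j * x j

section psd
variable {ι : Type*} [Fintype ι]

lemma psd_iff {M : ι → ι → ℝ} (hs : ∀ s t, M s t = M t s) :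
    (Matrix.of M).PosSemidef ↔ ∀ x : ι → ℝ, 0 ≤ Q M x := by
  classical
  rw [Matrix.posSemidef_iff_dotProduct_mulVec, and_iff_right]
  · refine forall_congr' fun x => ?_
    simp only [Q, dotProduct, Matrix.mulVec, star_trivial, Matrix.of_apply, Finset.mul_sum,
      mul_assoc]
  · ext i j
    simp [hs i j]

lemma Q_sub (M N : ι → ι → ℝ) (x : ι → ℝ) : Q (fun i j => M i j - N i j) x = Q M x - Q N x := by
  simp only [Q, ← Finset.sum_sub_distrib]
  exact Finset.sum_congr rfl fun i _ => Finset.sum_congr rfl fun j _ => by ring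

lemma Q_const_mul (c : ℝ) (M : ι → ι → ℝ) (x : ι → ℝ) : Q (fun i j => c * M i j) x = c * Q M x := by
  simp only [Q, Finset.mul_sum]
  exact Finset.sum_congr rfl fun i _ => Finset.sum_congr rfl fun j _ => by ring

lemma Q_one (x : ι → ℝ) : Q (fun _ _ => 1) x = (∑ i, x i) ^ 2 := by
  simp only [Q, sq, Finset.sum_mul_sum, mul_one]

lemma Q_diag [DecidableEq ι] (f : ι → ℝ) (x : ι → ℝ) :
    Q (fun i j => if i = j then f i else 0) x = ∑ i, f i * x i ^ 2 := by
  simp only [Q]
  refine Finset.sum_congr rfl fun i _ => ?_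
  rw [Finset.sum_eq_single i (fun j _ h => by simp [h.symm]) (by simp)]
  simp; ring

lemma schur {M N : ι → ι → ℝ} (hM : ∀ i j, M i j = M j i) (hN : ∀ i j, N i j = N j i)
    (h1 : ∀ x : ι → ℝ, 0 ≤ Q M x) (h2 : ∀ x : ι → ℝ, 0 ≤ Q N x) (x : ι → ℝ) :
    0 ≤ Q (fun i j => M i j * N i j) x := by
  classical
  have := ((psd_iff hM).2 h1).hadamard ((psd_iff hN).2 h2)
  refine (psd_iff (M := fun i j => M i j * N i j) fun i j => by rw [hM, hN]).1 ?_ x
  exact this

lemma pow_psd {M : ι → ι → ℝ} (hM : ∀ i j, M i j = M j i)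
    (h1 : ∀ x : ι → ℝ, 0 ≤ Q M x) (k : ℕ) (x : ι → ℝ) :
    0 ≤ Q (fun i j => M i j ^ k) x := by
  induction k generalizing x with
  | zero => simp only [pow_zero]; rw [Q_one]; positivity
  | succ k ih =>
    simp only [pow_succ]
    exact schur (fun i j => by rw [hM]) hM ih h1 x

end psd

section gauss
variable {E : Type*} [NormedAddCommGroup E] [InnerProductSpace ℝ E] {ι : Type*} [Fintype ι]

/-- The Gaussian kernel is positive semidefinite. -/
lemma gauss_psd (p : ι → E) {t : ℝ} (ht : 0 ≤ t) (x : ι → ℝ) :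
    0 ≤ Q (fun i j => exp (-t * ‖p i - p j‖ ^ 2)) x := by
  set y : ι → ℝ := fun i => x i * exp (-t * ‖p i‖ ^ 2) with hy
  have e : ∀ i j, x i * exp (-t * ‖p i - p j‖ ^ 2) * x j =
      y i * exp (2 * t * inner ℝ (p i) (p j)) * y j := by
    intro i j
    rw [norm_sub_sq_real, hy]
    simp only
    rw [show -t * (‖p i‖ ^ 2 - 2 * inner ℝ (p i) (p j) + ‖p j‖ ^ 2) =
      -t * ‖p i‖ ^ 2 + 2 * t * inner ℝ (p i) (p j) + -t * ‖p j‖ ^ 2 by ring, exp_add, exp_add]
    ring
  have hgram : ∀ z : ι → ℝ, 0 ≤ Q (fun i j => inner ℝ (p i) (p j)) z := by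
    intro z
    have : Q (fun i j => inner ℝ (p i) (p j)) z = ‖∑ i, z i • p i‖ ^ 2 := by
      rw [← real_inner_self_eq_norm_sq, sum_inner, Q]
      refine Finset.sum_congr rfl fun i _ => ?_
      rw [inner_sum]
      refine Finset.sum_congr rfl fun j _ => ?_
      rw [real_inner_smul_left, real_inner_smul_right]; ring
    rw [this]; positivity
  have hE : ∀ z : ℝ, HasSum (fun k : ℕ => z ^ k / k.factorial) (exp z) := by
    intro z
    rw [Real.exp_eq_exp_ℝ]
    exact NormedSpace.expSeries_div_hasSum_exp z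
  have hs : HasSum (fun k : ℕ => (2 * t) ^ k / k.factorial *
      Q (fun i j => inner ℝ (p i) (p j) ^ k) y)
      (Q (fun i j => exp (-t * ‖p i - p j‖ ^ 2)) x) := by
    have h : ∀ i j, HasSum (fun k : ℕ => y i * ((2 * t * inner ℝ (p i) (p j)) ^ k / k.factorial)
        * y j) (x i * exp (-t * ‖p i - p j‖ ^ 2) * x j) := by
      intro i j
      rw [e]
      exact ((hE (2 * t * inner ℝ (p i) (p j))).mul_left (y i)).mul_right (y j)
    have this : HasSum (fun k : ℕ => ∑ i, ∑ j,
        y i * ((2 * t * inner ℝ (p i) (p j)) ^ k / k.factorial) * y j)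
        (∑ i, ∑ j, x i * exp (-t * ‖p i - p j‖ ^ 2) * x j) :=
      hasSum_sum fun i _ => hasSum_sum fun j _ => h i j
    have e4 : (fun k : ℕ => (2 * t) ^ k / k.factorial *
        Q (fun i j => inner ℝ (p i) (p j) ^ k) y) = fun k : ℕ => ∑ i, ∑ j,
        y i * ((2 * t * inner ℝ (p i) (p j)) ^ k / k.factorial) * y j := by
      funext k
      simp only [Q, Finset.mul_sum]
      refine Finset.sum_congr rfl fun i _ => Finset.sum_congr rfl fun j _ => ?_
      rw [mul_pow]; ring
    rw [e4]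
    exact this
  refine hs.nonneg fun k => mul_nonneg (by positivity) (pow_psd (fun i j => real_inner_comm _ _)
    hgram k y)

variable [FiniteDimensional ℝ E]

/-- Packing: Gaussian sums over separated sets are uniformly bounded. -/
lemma packing (E : Type*) [NormedAddCommGroup E] [InnerProductSpace ℝ E] [FiniteDimensional ℝ E]
    {δ : ℝ} (hδ : 0 < δ) : ∃ B : ℝ, 0 < B ∧
    ∀ (ι : Type) [Fintype ι] (p : ι → E), (∀ i j, i ≠ j → δ ≤ ‖p i - p j‖) → ∀ q : E,
      ∑ j, exp (-‖p j - q‖ ^ 2) ≤ B := by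
  let _ : MeasurableSpace E := borel E
  have _ : BorelSpace E := ⟨rfl⟩
  have hint : Integrable (fun x : E => exp (-‖x‖ ^ 2 / 2)) := by
    have := (GaussianFourier.integrable_cexp_neg_mul_sq_norm_add (V := E) (b := 1 / 2)
      (by norm_num) 0 0).norm
    refine this.congr (Eventually.of_forall fun x => ?_)
    simp only [Complex.norm_exp]
    congr 1
    simp [← Complex.ofReal_pow]
    ring
  set v := (volume (Metric.ball (0 : E) (δ / 2))).toReal with hv
  have hvpos : 0 < v := ENNReal.toReal_pos (Metric.measure_ball_pos _ _ (by positivity)).ne'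
    measure_ball_lt_top.ne
  set S := ∫ x : E, exp (-‖x‖ ^ 2 / 2) with hS
  have hSpos : 0 ≤ S := integral_nonneg fun x => (exp_pos _).le
  refine ⟨exp (δ ^ 2 / 4) * S / v + 1, by positivity, fun ι _ p hp q => ?_⟩
  classical
  refine le_trans ?_ (le_add_of_nonneg_right zero_le_one)
  rw [le_div_iff₀ hvpos, Finset.sum_mul]
  have hq : Integrable (fun x : E => exp (δ ^ 2 / 4) * exp (-‖x - q‖ ^ 2 / 2)) :=
    (hint.comp_sub_right q).const_mul _
  have h1 : ∀ j, exp (-‖p j - q‖ ^ 2) * v ≤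
      ∫ x in Metric.ball (p j) (δ / 2), exp (δ ^ 2 / 4) * exp (-‖x - q‖ ^ 2 / 2) := by
    intro j
    have e : exp (-‖p j - q‖ ^ 2) * v = ∫ x in Metric.ball (p j) (δ / 2), exp (-‖p j - q‖ ^ 2) := by
      rw [setIntegral_const, smul_eq_mul, mul_comm, Measure.real, hv]
      congr 2
      rw [← Measure.addHaar_ball_center]
    rw [e]
    refine setIntegral_mono_on (integrableOn_const measure_ball_lt_top.ne) hq.integrableOn
      measurableSet_ball fun x hx => ?_
    rw [← exp_add]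
    apply exp_le_exp.2
    have h2 : ‖x - q‖ ≤ ‖p j - q‖ + δ / 2 := by
      have := norm_add_le (x - p j) (p j - q)
      rw [sub_add_sub_cancel] at this
      have h3 : ‖x - p j‖ < δ / 2 := by simpa [dist_eq_norm] using hx
      linarith
    have h4 : ‖x - q‖ ^ 2 ≤ (‖p j - q‖ + δ / 2) ^ 2 := pow_le_pow_left₀ (norm_nonneg _) h2 2
    nlinarith [sq_nonneg (‖p j - q‖ - δ / 2)]
  refine (Finset.sum_le_sum fun j _ => h1 j).trans ?_
  rw [← integral_biUnion_finset _ (fun j _ => measurableSet_ball) ?_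
    (fun j _ => hq.integrableOn)]
  · refine (setIntegral_le_integral hq (Eventually.of_forall fun x => by positivity)).trans ?_
    rw [integral_const_mul, integral_sub_right_eq_self (fun x : E => exp (-‖x‖ ^ 2 / 2)) q]
  · intro i _ j _ hij
    refine Metric.ball_disjoint_ball ?_
    rw [dist_eq_norm]
    have := hp i j hij
    linarith

/-- Diagonal dominance of the Gaussian kernel on a separated configuration. -/
lemma gauss_lower (E : Type*) [NormedAddCommGroup E] [InnerProductSpace ℝ E]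
    [FiniteDimensional ℝ E] {δ : ℝ} (hδ : 0 < δ) : ∃ T : ℝ, 0 < T ∧
    ∀ (ι : Type) [Fintype ι] (p : ι → E), (∀ i j, i ≠ j → δ ≤ ‖p i - p j‖) → ∀ t, T ≤ t →
      ∀ x : ι → ℝ, (∑ i, x i ^ 2) / 2 ≤ Q (fun i j => exp (-t * ‖p i - p j‖ ^ 2)) x := by
  obtain ⟨B, hB, h⟩ := packing E hδ
  refine ⟨1 + (log (2 * B + 1)) / δ ^ 2, by
    have : 0 < log (2 * B + 1) := log_pos (by linarith)
    positivity, fun ι _ p hp t ht x => ?_⟩
  classical
  have hlog : 0 < log (2 * B + 1) := log_pos (by linarith)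
  have hδ2 : 0 < δ ^ 2 := by positivity
  have ht1 : 0 ≤ t - 1 := by
    have : 0 < log (2 * B + 1) / δ ^ 2 := by positivity
    linarith
  have ht2 : exp (-(t - 1) * δ ^ 2) * B ≤ 1 / 2 := by
    have h1 : log (2 * B + 1) ≤ (t - 1) * δ ^ 2 := by
      rw [← div_le_iff₀ hδ2]; linarith
    have h2 : exp (-(t - 1) * δ ^ 2) ≤ (2 * B + 1)⁻¹ := by
      rw [← Real.exp_log (show 0 < 2 * B + 1 by linarith), ← Real.exp_neg, Real.exp_le_exp]
      linarith
    calc _ ≤ (2 * B + 1)⁻¹ * B := by gcongr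
      _ ≤ 1 / 2 := by
        rw [inv_mul_le_iff₀ (by linarith)]; linarith
  have row : ∀ i, ∑ j ∈ Finset.univ.erase i, exp (-t * ‖p i - p j‖ ^ 2) ≤ 1 / 2 := by
    intro i
    refine le_trans ?_ ht2
    have h3 : ∀ j ∈ Finset.univ.erase i, exp (-t * ‖p i - p j‖ ^ 2) ≤
        exp (-(t - 1) * δ ^ 2) * exp (-‖p j - p i‖ ^ 2) := by
      intro j hj
      have hji : i ≠ j := fun h => Finset.ne_of_mem_erase hj h.symm
      have h4 := hp i j hji
      have h5 : δ ^ 2 ≤ ‖p i - p j‖ ^ 2 := pow_le_pow_left₀ hδ.le h4 2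
      rw [← exp_add, norm_sub_rev (p j)]
      apply exp_le_exp.2
      nlinarith [mul_le_mul_of_nonneg_left h5 ht1]
    refine (Finset.sum_le_sum h3).trans ?_
    rw [← Finset.mul_sum]
    refine mul_le_mul_of_nonneg_left ?_ (exp_pos _).le
    exact (Finset.sum_le_sum_of_subset_of_nonneg (Finset.erase_subset _ _)
      fun _ _ _ => (exp_pos _).le).trans (h ι p hp (p i))
  set G : ι → ι → ℝ := fun i j => exp (-t * ‖p i - p j‖ ^ 2) with hG
  have hGs : ∀ i j, G i j = G j i := fun i j => by simp only [hG, norm_sub_rev]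
  have hsplit : Q G x = ∑ i, x i ^ 2 + ∑ i, ∑ j ∈ Finset.univ.erase i, x i * G i j * x j := by
    rw [Q, ← Finset.sum_add_distrib]
    refine Finset.sum_congr rfl fun i _ => ?_
    rw [← Finset.add_sum_erase _ _ (Finset.mem_univ i)]
    simp [hG, sq]
  have hoff : -∑ i, ∑ j ∈ Finset.univ.erase i, (x i ^ 2 / 2 * G i j + x j ^ 2 / 2 * G i j) ≤
      ∑ i, ∑ j ∈ Finset.univ.erase i, x i * G i j * x j := by
    rw [← Finset.sum_neg_distrib]
    refine Finset.sum_le_sum fun i _ => ?_
    rw [← Finset.sum_neg_distrib]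
    refine Finset.sum_le_sum fun j _ => ?_
    have : 0 ≤ G i j := (exp_pos _).le
    nlinarith [mul_nonneg this (sq_nonneg (x i + x j))]
  have hsym : ∑ i, ∑ j ∈ Finset.univ.erase i, x j ^ 2 / 2 * G i j =
      ∑ i, ∑ j ∈ Finset.univ.erase i, x i ^ 2 / 2 * G i j := by
    have e1 : ∀ f : ι → ι → ℝ, ∑ i, ∑ j ∈ Finset.univ.erase i, f i j =
        ∑ i, ∑ j, if j ≠ i then f i j else 0 := by
      intro f
      refine Finset.sum_congr rfl fun i _ => ?_
      rw [← Finset.sum_filter]
      refine Finset.sum_congr ?_ fun _ _ => rfl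
      ext j; simp
    rw [e1, e1, Finset.sum_comm]
    refine Finset.sum_congr rfl fun i _ => Finset.sum_congr rfl fun j _ => ?_
    by_cases hij : i = j
    · simp [hij]
    · simp only [ne_eq, hij, Ne.symm hij, not_false_eq_true, if_true, hGs j i]
  have hrow2 : ∑ i, ∑ j ∈ Finset.univ.erase i, x i ^ 2 / 2 * G i j ≤ ∑ i, x i ^ 2 / 4 := by
    refine Finset.sum_le_sum fun i _ => ?_
    rw [← Finset.mul_sum]
    have := row i
    nlinarith [sq_nonneg (x i)]
  simp only [Finset.sum_add_distrib] at hoff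
  rw [hsym] at hoff
  rw [hsplit]
  have e3 : ∑ i, x i ^ 2 / 4 = (∑ i, x i ^ 2) / 4 := by rw [Finset.sum_div]
  linarith

end gauss

end Pool.Agent.KS6_84.FBM
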