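import Pool.Agent.KS6_84.FBM.Basic

/-! Subordination, and the comparison `R ≥ c (11ᵀ + I)` on separated configurations. -/

namespace Pool.Agent.KS6_84.FBM

open MeasureTheory Set Filter Topology Real

section sub

lemma sub_int {α : ℝ} (h0 : 0 < α) (h1 : α < 1) :
    IntegrableOn (fun u : ℝ => (1 - exp (-u)) * u ^ (-α - 1)) (Ioi 0) := by
  have hm : Measurable fun u : ℝ => (1 - exp (-u)) * u ^ (-α - 1) :=
    (measurable_const.sub (Real.measurable_exp.comp measurable_neg)).mul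
      (measurable_id.pow_const _)
  rw [← Ioc_union_Ioi_eq_Ioi zero_le_one]
  refine IntegrableOn.union ?_ ?_
  · have := (intervalIntegral.intervalIntegrable_rpow' (a := 0) (b := 1) (r := -α)
      (by linarith)).1
    refine Integrable.mono' this hm.aestronglyMeasurable ?_
    filter_upwards [ae_restrict_mem measurableSet_Ioc] with u hu
    have h2 : 0 ≤ 1 - exp (-u) := by
      have : exp (-u) ≤ 1 := exp_le_one_iff.2 (by linarith [hu.1])
      linarith
    have h3 : 1 - exp (-u) ≤ u ^ (1 : ℝ) := by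
      have := Real.add_one_le_exp (-u)
      rw [rpow_one]; linarith
    rw [Real.norm_of_nonneg (mul_nonneg h2 (rpow_nonneg hu.1.le _)),
      show -α = 1 + (-α - 1) by ring, rpow_add hu.1, show 1 + (-α - 1) - 1 = -α - 1 by ring]
    exact mul_le_mul_of_nonneg_right h3 (rpow_nonneg hu.1.le _)
  · have := integrableOn_Ioi_rpow_of_lt (a := -α - 1) (by linarith) one_pos
    refine Integrable.mono' this hm.aestronglyMeasurable ?_
    filter_upwards [ae_restrict_mem measurableSet_Ioi] with u hu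
    have hu0 : (0 : ℝ) ≤ u := zero_le_one.trans (le_of_lt hu)
    have h2 : 0 ≤ 1 - exp (-u) := by
      have : exp (-u) ≤ 1 := exp_le_one_iff.2 (by linarith)
      linarith
    rw [Real.norm_of_nonneg (mul_nonneg h2 (rpow_nonneg hu0 _))]
    have h4 : 1 - exp (-u) ≤ 1 := by linarith [exp_pos (-u)]
    calc _ ≤ 1 * u ^ (-α - 1) := mul_le_mul_of_nonneg_right h4 (rpow_nonneg hu0 _)
      _ = _ := one_mul _

/-- The normalizing integral. -/
noncomputable def J (α : ℝ) : ℝ := ∫ u in Ioi (0 : ℝ), (1 - exp (-u)) * u ^ (-α - 1)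

lemma sub_rep {α : ℝ} (h0 : 0 < α) (h1 : α < 1) {y : ℝ} (hy : 0 ≤ y) :
    IntegrableOn (fun u : ℝ => (1 - exp (-u * y)) * u ^ (-α - 1)) (Ioi 0) ∧
      ∫ u in Ioi (0 : ℝ), (1 - exp (-u * y)) * u ^ (-α - 1) = y ^ α * J α := by
  rcases hy.eq_or_lt with h | h
  · simp [← h, zero_rpow h0.ne']
  have e2 : EqOn (fun u : ℝ => y ^ (α + 1) * ((1 - exp (-(y * u))) * (y * u) ^ (-α - 1)))
      (fun u => (1 - exp (-u * y)) * u ^ (-α - 1)) (Ioi 0) := by
    intro u hu
    have : y ^ (α + 1) * y ^ (-α - 1) = 1 := by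
      rw [← rpow_add h]; simp
    simp only [mul_rpow h.le (le_of_lt hu)]
    rw [show -u * y = -(y * u) by ring]
    linear_combination ((1 - exp (-(y * u))) * u ^ (-α - 1)) * this
  constructor
  · have := (integrableOn_Ioi_comp_mul_left_iff (fun u : ℝ => (1 - exp (-u)) * u ^ (-α - 1)) 0 h).2
      (by rw [mul_zero]; exact sub_int h0 h1)
    exact IntegrableOn.congr_fun (this.const_mul _) e2 measurableSet_Ioi
  · rw [← setIntegral_congr_fun measurableSet_Ioi e2, integral_const_mul,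
      integral_comp_mul_left_Ioi (fun u : ℝ => (1 - exp (-u)) * u ^ (-α - 1)) 0 h, mul_zero,
      rpow_add_one h.ne', smul_eq_mul, J]
    field_simp

lemma J_pos {α : ℝ} (h0 : 0 < α) (h1 : α < 1) : 0 < J α := by
  rw [J, setIntegral_pos_iff_support_of_nonneg_ae _ (sub_int h0 h1)]
  · refine lt_of_lt_of_le ?_ (measure_mono (s := Ioc (0 : ℝ) 1) ?_)
    · simp
    · intro u hu
      refine ⟨?_, hu.1⟩
      have h2 : 0 < 1 - exp (-u) := by
        have : exp (-u) < 1 := by simpa using exp_lt_exp.2 (show -u < 0 by linarith [hu.1])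
        linarith
      exact (mul_pos h2 (rpow_pos_of_pos hu.1 _)).ne'
  · filter_upwards [ae_restrict_mem measurableSet_Ioi] with u hu
    have h2 : 0 ≤ 1 - exp (-u) := by
      have : exp (-u) ≤ 1 := exp_le_one_iff.2 (by linarith [mem_Ioi.1 hu])
      linarith
    exact mul_nonneg h2 (rpow_nonneg (le_of_lt hu) _)

end sub

section main
variable {E : Type*} [NormedAddCommGroup E] [InnerProductSpace ℝ E]

/-- The covariance of Lévy's fractional Brownian field with exponent `γ = 2H`. -/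
noncomputable def R (γ : ℝ) (s t : E) : ℝ := (‖s‖ ^ γ + ‖t‖ ^ γ - ‖s - t‖ ^ γ) / 2

omit [InnerProductSpace ℝ E] in
lemma R_symm (γ : ℝ) (s t : E) : R γ s t = R γ t s := by
  rw [R, R, norm_sub_rev, add_comm (‖s‖ ^ γ)]

variable {ι : Type} [Fintype ι]

/-- The kernel `1 - e^{-u|s|²} - e^{-u|t|²} + e^{-u|s-t|²}`. -/
noncomputable def K (u : ℝ) (s t : E) : ℝ :=
  1 - exp (-u * ‖s‖ ^ 2) - exp (-u * ‖t‖ ^ 2) + exp (-u * ‖s - t‖ ^ 2)

/-- A configuration together with the origin. -/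
def opt (s : ι → E) : Option ι → E := fun o => o.elim 0 s

lemma K_eq (s : ι → E) (u : ℝ) (x : ι → ℝ) : Q (fun i j => K u (s i) (s j)) x =
    Q (fun i j : Option ι => exp (-u * ‖opt s i - opt s j‖ ^ 2))
      (fun o => o.elim (-∑ i, x i) x) := by
  simp only [Q, K, Fintype.sum_option, opt, Option.elim]
  simp only [sub_self, sub_zero, zero_sub, norm_neg, norm_zero]
  simp only [ne_eq, OfNat.ofNat_ne_zero, not_false_eq_true, zero_pow, mul_zero, exp_zero, mul_one]
  simp only [mul_sub, mul_add, sub_mul, add_mul, mul_one, Finset.sum_sub_distrib,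
    Finset.sum_add_distrib]
  have e1 : ∑ i, ∑ j, x i * x j = (∑ i, x i) * ∑ i, x i := by rw [Finset.sum_mul_sum]
  have e2 : ∑ i, ∑ j, x i * exp (-u * ‖s i‖ ^ 2) * x j =
      (∑ i, x i * exp (-u * ‖s i‖ ^ 2)) * ∑ j, x j := by rw [Finset.sum_mul_sum]
  have e3 : ∑ i, ∑ j, x i * exp (-u * ‖s j‖ ^ 2) * x j =
      (∑ i, x i) * ∑ j, exp (-u * ‖s j‖ ^ 2) * x j := by
    rw [Finset.sum_mul_sum]
    exact Finset.sum_congr rfl fun i _ => Finset.sum_congr rfl fun j _ => by ring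
  rw [e1, e2, e3]
  have e4 : ∑ i, x i * exp (-u * ‖s i‖ ^ 2) = ∑ j, exp (-u * ‖s j‖ ^ 2) * x j :=
    Finset.sum_congr rfl fun i _ => mul_comm _ _
  have e5 : ∀ X : ℝ, ∑ j, -X * exp (-u * ‖s j‖ ^ 2) * x j =
      -(X * ∑ j, exp (-u * ‖s j‖ ^ 2) * x j) := by
    intro X
    rw [Finset.mul_sum, ← Finset.sum_neg_distrib]
    exact Finset.sum_congr rfl fun i _ => by ring
  have e6 : ∀ X : ℝ, ∑ j, x j * exp (-u * ‖s j‖ ^ 2) * -X =
      -(X * ∑ j, exp (-u * ‖s j‖ ^ 2) * x j) := by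
    intro X
    rw [Finset.mul_sum, ← Finset.sum_neg_distrib]
    exact Finset.sum_congr rfl fun i _ => by ring
  rw [e4, e5, e6]
  ring

lemma K_nonneg (s : ι → E) {u : ℝ} (hu : 0 ≤ u) (x : ι → ℝ) :
    0 ≤ Q (fun i j => K u (s i) (s j)) x := by
  rw [K_eq]; exact gauss_psd _ hu _

lemma main_lower [FiniteDimensional ℝ E] {γ : ℝ} (h0 : 0 < γ) (h2 : γ < 2) {δ : ℝ} (hδ : 0 < δ) :
    ∃ c : ℝ, 0 < c ∧ ∀ (ι : Type) [Fintype ι] (s : ι → E), (∀ i, δ ≤ ‖s i‖) →
      (∀ i j, i ≠ j → δ ≤ ‖s i - s j‖) → ∀ x : ι → ℝ,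
      c * ((∑ i, x i) ^ 2 + ∑ i, x i ^ 2) ≤ Q (fun i j => R γ (s i) (s j)) x := by
  obtain ⟨T, hT, hG⟩ := gauss_lower E hδ
  have ha0 : 0 < γ / 2 := by positivity
  have ha1 : γ / 2 < 1 := by linarith
  have hJ := J_pos ha0 ha1
  refine ⟨(T + 1) ^ (-(γ / 2) - 1) / (4 * J (γ / 2)), by positivity, fun ι _ s hs hss x => ?_⟩
  classical
  have hrep : ∀ z : E, IntegrableOn
      (fun u : ℝ => (1 - exp (-u * ‖z‖ ^ 2)) * u ^ (-(γ / 2) - 1)) (Ioi 0) ∧
      ∫ u in Ioi (0 : ℝ), (1 - exp (-u * ‖z‖ ^ 2)) * u ^ (-(γ / 2) - 1) =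
        ‖z‖ ^ γ * J (γ / 2) := by
    intro z
    have := sub_rep ha0 ha1 (y := ‖z‖ ^ 2) (by positivity)
    rwa [← rpow_natCast, ← rpow_mul (norm_nonneg z),
      show ((2 : ℕ) : ℝ) * (γ / 2) = γ by push_cast; ring, rpow_natCast] at this
  have hKe : ∀ (a b : E) (u : ℝ), K u a b * u ^ (-(γ / 2) - 1) =
      (1 - exp (-u * ‖a‖ ^ 2)) * u ^ (-(γ / 2) - 1) +
      (1 - exp (-u * ‖b‖ ^ 2)) * u ^ (-(γ / 2) - 1) -
      (1 - exp (-u * ‖a - b‖ ^ 2)) * u ^ (-(γ / 2) - 1) := by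
    intro a b u; rw [K]; ring
  have hKi : ∀ a b : E, IntegrableOn (fun u => K u a b * u ^ (-(γ / 2) - 1)) (Ioi 0) := by
    intro a b
    simp_rw [hKe]
    exact ((hrep a).1.add (hrep b).1).sub (hrep (a - b)).1
  have hKv : ∀ a b : E, ∫ u in Ioi (0 : ℝ), K u a b * u ^ (-(γ / 2) - 1) =
      2 * J (γ / 2) * R γ a b := by
    intro a b
    simp_rw [hKe]
    rw [integral_sub ((hrep a).1.fun_add (hrep b).1) (hrep (a - b)).1,
      integral_add (hrep a).1 (hrep b).1, (hrep a).2, (hrep b).2, (hrep (a - b)).2, R]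
    ring
  have e1 : ∀ u, Q (fun i j => K u (s i) (s j)) x * u ^ (-(γ / 2) - 1) =
      ∑ i, ∑ j, x i * x j * (K u (s i) (s j) * u ^ (-(γ / 2) - 1)) := by
    intro u
    simp only [Q, Finset.sum_mul]
    exact Finset.sum_congr rfl fun i _ => Finset.sum_congr rfl fun j _ => by ring
  have hF : IntegrableOn (fun u => Q (fun i j => K u (s i) (s j)) x * u ^ (-(γ / 2) - 1))
      (Ioi 0) := by
    simp_rw [e1]
    exact integrable_finsetSum _ fun i _ => integrable_finsetSum _ fun j _ =>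
      (hKi _ _).const_mul _
  have e2 : ∫ u in Ioi (0 : ℝ), Q (fun i j => K u (s i) (s j)) x * u ^ (-(γ / 2) - 1) =
      2 * J (γ / 2) * Q (fun i j => R γ (s i) (s j)) x := by
    simp_rw [e1]
    rw [integral_finsetSum _ fun i _ => integrable_finsetSum _ fun j _ =>
      (hKi _ _).const_mul _, Q, Finset.mul_sum]
    refine Finset.sum_congr rfl fun i _ => ?_
    rw [integral_finsetSum _ fun j _ => (hKi _ _).const_mul _, Finset.mul_sum]
    refine Finset.sum_congr rfl fun j _ => ?_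
    rw [integral_const_mul, hKv]
    ring
  have hlow : (T + 1) ^ (-(γ / 2) - 1) * (((∑ i, x i) ^ 2 + ∑ i, x i ^ 2) / 2) ≤
      2 * J (γ / 2) * Q (fun i j => R γ (s i) (s j)) x := by
    rw [← e2]
    have hsub : Ioc T (T + 1) ⊆ Ioi 0 := fun u hu => hT.trans hu.1
    have e3 : ∫ _ in Ioc T (T + 1), (T + 1) ^ (-(γ / 2) - 1) *
        (((∑ i, x i) ^ 2 + ∑ i, x i ^ 2) / 2) = (T + 1) ^ (-(γ / 2) - 1) *
        (((∑ i, x i) ^ 2 + ∑ i, x i ^ 2) / 2) := by
      rw [setIntegral_const]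
      simp
    rw [← e3]
    refine le_trans (setIntegral_mono_on ?_ (hF.mono_set hsub) measurableSet_Ioc
      fun u hu => ?_) (setIntegral_mono_set hF ?_ (Eventually.of_forall hsub))
    · exact integrableOn_const (by simp)
    · have hu0 : 0 < u := hT.trans hu.1
      have h3 : (T + 1) ^ (-(γ / 2) - 1) ≤ u ^ (-(γ / 2) - 1) :=
        rpow_le_rpow_of_nonpos hu0 hu.2 (by linarith)
      have h4 := hG (Option ι) (opt s) (by
        rintro (_ | i) (_ | j) hij
        · exact absurd rfl hij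
        · simpa [opt] using hs j
        · simpa [opt] using hs i
        · exact hss i j (fun h => hij (by rw [h]))) u hu.1.le (fun o => o.elim (-∑ i, x i) x)
      rw [← K_eq] at h4
      have h5 : (∑ o : Option ι, (o.elim (-∑ i, x i) x) ^ 2) = (∑ i, x i) ^ 2 + ∑ i, x i ^ 2 := by
        rw [Fintype.sum_option]; simp
      rw [h5] at h4
      calc _ ≤ u ^ (-(γ / 2) - 1) * (((∑ i, x i) ^ 2 + ∑ i, x i ^ 2) / 2) := by gcongr
        _ ≤ u ^ (-(γ / 2) - 1) * Q (fun i j => K u (s i) (s j)) x := by gcongr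
        _ = _ := mul_comm _ _
    · filter_upwards [ae_restrict_mem measurableSet_Ioi] with u hu
      exact mul_nonneg (K_nonneg s (le_of_lt hu) x) (rpow_nonneg (le_of_lt hu) _)
  rw [div_mul_eq_mul_div, div_le_iff₀ (by positivity)]
  linarith

/-- Comparison of consecutive Hadamard powers. -/
lemma powers [DecidableEq ι] {γ c : ℝ} (s : ι → E) (hc : 0 < c)
    (h : ∀ x : ι → ℝ, c * ((∑ i, x i) ^ 2 + ∑ i, x i ^ 2) ≤ Q (fun i j => R γ (s i) (s j)) x)
    (k : ℕ) (x : ι → ℝ) :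
    c * (Q (fun i j => R γ (s i) (s j) ^ k) x + ∑ i, R γ (s i) (s i) ^ k * x i ^ 2) ≤
      Q (fun i j => R γ (s i) (s j) ^ (k + 1)) x := by
  have h1 : ∀ x : ι → ℝ, 0 ≤ Q (fun i j => R γ (s i) (s j)) x :=
    fun x => le_trans (by positivity) (h x)
  have h2 := pow_psd (fun i j => R_symm γ (s i) (s j)) h1 k
  have h3 : ∀ x : ι → ℝ, 0 ≤ Q (fun i j => R γ (s i) (s j) -
      c * (1 + if i = j then 1 else 0)) x := by
    intro x
    rw [Q_sub, Q_const_mul]
    have e : Q (fun i j => (1 : ℝ) + if i = j then 1 else 0) x = (∑ i, x i) ^ 2 + ∑ i, x i ^ 2 := by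
      have e1 := Q_sub (fun i j : ι => (1 : ℝ) + if i = j then 1 else 0) (fun _ _ => 1) x
      rw [Q_one] at e1
      have e2 : Q (fun i j : ι => (1 : ℝ) + (if i = j then 1 else 0) - 1) x = ∑ i, x i ^ 2 := by
        have := Q_diag (fun _ : ι => (1 : ℝ)) x
        simp only [one_mul] at this
        rw [← this]
        congr 1
        ext i j
        ring
      linarith
    rw [e]
    linarith [h x]
  have h4 := schur (fun i j => by rw [R_symm γ (s i) (s j)]) (fun i j => by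
    rw [R_symm γ (s i) (s j)]; simp only [eq_comm]) h2 h3 x
  have e : Q (fun i j => R γ (s i) (s j) ^ k * (R γ (s i) (s j) -
      c * (1 + if i = j then 1 else 0))) x = Q (fun i j => R γ (s i) (s j) ^ (k + 1)) x -
      c * (Q (fun i j => R γ (s i) (s j) ^ k) x + ∑ i, R γ (s i) (s i) ^ k * x i ^ 2) := by
    rw [← Q_diag (fun i => R γ (s i) (s i) ^ k)]
    simp only [Q, Finset.mul_sum, ← Finset.sum_add_distrib, ← Finset.sum_sub_distrib]
    refine Finset.sum_congr rfl fun i _ => Finset.sum_congr rfl fun j _ => ?_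
    split_ifs with hij
    · subst hij; ring
    · ring
  linarith

end main

end Pool.Agent.KS6_84.FBM
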